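import Pool.Agent.H268R2.KR.Graph

/-! Real form and the case of Cayley graphs of elementary abelian 2-groups. -/

set_option autoImplicit false

open Finset

set_option linter.unusedSectionVars false

namespace Pool.Agent.H268R2.KR

open Classical in
theorem real_form {V : Type} [Fintype V] [Nonempty V] {H : Type} [AddCommGroup H] [Fintype H]
    [AddAction H V] (h2 : ∀ h : H, h + h = 0) (hfree : ∀ (h : H) (v : V), h +ᵥ v = v → h = 0)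
    (G : SimpleGraph V) (hinv : ∀ (h : H) (x y : V), G.Adj (h +ᵥ x) (h +ᵥ y) ↔ G.Adj x y)
    {r j : ℕ} (hr1 : 1 ≤ r) (hr : r ≤ 2 ^ (j + 1))
    (hG : (completeBipartiteGraph (Fin r) (Fin r)).Free G) {c : ℝ} (hc : 0 < c)
    (he : c * (Fintype.card V : ℝ) ^ (2 - 1 / (r : ℝ)) ≤ (G.edgeFinset.card : ℝ)) :
    (Fintype.card H : ℝ) * c ^ (2 ^ j) <
      2 ^ j * (Fintype.card V : ℝ) ^ ((2 : ℝ) ^ j / (r : ℝ)) := by
  have hm := main h2 hfree G hinv hr hG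
  have hnpos : 0 < Fintype.card V := Fintype.card_pos
  set n := Fintype.card V with hn
  set t := Fintype.card H with ht
  set e := G.edgeFinset.card with he'
  have hm' : (t : ℝ) * (e : ℝ) ^ (2 ^ j) < 2 ^ j * ((n : ℝ) ^ 2) ^ (2 ^ j) := by
    exact_mod_cast hm
  have hn0 : (0:ℝ) < n := by exact_mod_cast hnpos
  have h1 : (c * (n : ℝ) ^ (2 - 1 / (r : ℝ))) ^ (2 ^ j) ≤ (e : ℝ) ^ (2 ^ j) :=
    pow_le_pow_left₀ (by positivity) he _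
  have h3 : ((n : ℝ) ^ 2) ^ (2 ^ j) =
      ((n : ℝ) ^ (2 - 1 / (r : ℝ))) ^ (2 ^ j) * (n : ℝ) ^ ((2 : ℝ) ^ j / (r : ℝ)) := by
    rw [← Real.rpow_natCast, ← Real.rpow_natCast, ← Real.rpow_natCast, ← Real.rpow_mul hn0.le,
      ← Real.rpow_mul hn0.le, ← Real.rpow_add hn0]
    congr 1
    push_cast
    ring
  rw [mul_pow] at h1
  rw [h3] at hm'
  have h4 : 0 < ((n : ℝ) ^ (2 - 1 / (r : ℝ))) ^ (2 ^ j) := by positivity
  have h5 : ((t : ℝ) * c ^ (2 ^ j)) * ((n : ℝ) ^ (2 - 1 / (r : ℝ))) ^ (2 ^ j) <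
      (2 ^ j * (n : ℝ) ^ ((2 : ℝ) ^ j / (r : ℝ))) * ((n : ℝ) ^ (2 - 1 / (r : ℝ))) ^ (2 ^ j) := by
    calc ((t : ℝ) * c ^ (2 ^ j)) * ((n : ℝ) ^ (2 - 1 / (r : ℝ))) ^ (2 ^ j)
        = (t : ℝ) * (c ^ (2 ^ j) * ((n : ℝ) ^ (2 - 1 / (r : ℝ))) ^ (2 ^ j)) := by ring
      _ ≤ (t : ℝ) * (e : ℝ) ^ (2 ^ j) := mul_le_mul_of_nonneg_left h1 (by positivity)
      _ < _ := hm'
      _ = _ := by ring
  exact lt_of_mul_lt_mul_right h5 h4.le

open Classical in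
theorem cayley (r : ℕ) (hr : 2 ≤ r) (c : ℝ) (hc : 0 < c) :
    ∃ n₀ : ℕ, ∀ (H : Type) [AddCommGroup H] [Fintype H], (∀ h : H, h + h = 0) →
      n₀ ≤ Fintype.card H → ∀ G : SimpleGraph H, (∀ h x y : H, G.Adj (h + x) (h + y) ↔ G.Adj x y) →
        (completeBipartiteGraph (Fin r) (Fin r)).Free G →
          (G.edgeFinset.card : ℝ) < c * (Fintype.card H : ℝ) ^ (2 - 1 / (r : ℝ)) := by
  obtain ⟨j, hj1, hj2⟩ : ∃ j : ℕ, 2 ^ j < r ∧ r ≤ 2 ^ (j + 1) := by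
    have h1 : 1 ≤ Nat.clog 2 r := by
      have := Nat.clog_pos (b := 2) (by norm_num) hr
      omega
    refine ⟨Nat.clog 2 r - 1, ?_, ?_⟩
    · exact Nat.pow_pred_clog_lt_self (by norm_num) (by omega)
    · rw [Nat.sub_add_cancel h1]
      exact Nat.le_pow_clog (by norm_num) r
  have hr0 : (0:ℝ) < r := by exact_mod_cast (by omega : 0 < r)
  have hexp : 0 < 1 - (2 : ℝ) ^ j / (r : ℝ) := by
    have : (2 : ℝ) ^ j / (r : ℝ) < 1 := by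
      rw [div_lt_one hr0]
      exact_mod_cast hj1
    linarith
  obtain ⟨n₀, hn₀⟩ : ∃ n₀ : ℕ, ∀ n : ℕ, n₀ ≤ n →
      2 ^ j / c ^ (2 ^ j) ≤ (n : ℝ) ^ (1 - (2 : ℝ) ^ j / (r : ℝ)) := by
    have := ((tendsto_rpow_atTop hexp).comp tendsto_natCast_atTop_atTop).eventually_ge_atTop
      (2 ^ j / c ^ (2 ^ j))
    exact Filter.eventually_atTop.mp this
  refine ⟨n₀, fun H _ _ h2 hcard G hinv hG => ?_⟩
  by_contra hcon
  push Not at hcon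
  have h1 := real_form (V := H) (H := H) h2 (fun h v hv => by simpa using hv) G
    (fun h x y => hinv h x y) (by omega) hj2 hG hc hcon
  have hpos : (0:ℝ) < Fintype.card H := by
    exact_mod_cast (Fintype.card_pos_iff.mpr ⟨(0 : H)⟩)
  have h3 := hn₀ _ hcard
  rw [div_le_iff₀ (by positivity)] at h3
  have h4 : (Fintype.card H : ℝ) = (Fintype.card H : ℝ) ^ (1 - (2 : ℝ) ^ j / (r : ℝ)) *
      (Fintype.card H : ℝ) ^ ((2 : ℝ) ^ j / (r : ℝ)) := by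
    rw [← Real.rpow_add hpos]
    simp
  have h5 : (2:ℝ) ^ j * (Fintype.card H : ℝ) ^ ((2 : ℝ) ^ j / (r : ℝ)) ≤
      (Fintype.card H : ℝ) * c ^ (2 ^ j) := by
    calc (2:ℝ) ^ j * (Fintype.card H : ℝ) ^ ((2 : ℝ) ^ j / (r : ℝ))
        ≤ ((Fintype.card H : ℝ) ^ (1 - (2 : ℝ) ^ j / (r : ℝ)) * c ^ (2 ^ j)) *
          (Fintype.card H : ℝ) ^ ((2 : ℝ) ^ j / (r : ℝ)) :=
          mul_le_mul_of_nonneg_right h3 (by positivity)
      _ = ((Fintype.card H : ℝ) ^ (1 - (2 : ℝ) ^ j / (r : ℝ)) *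
          (Fintype.card H : ℝ) ^ ((2 : ℝ) ^ j / (r : ℝ))) * c ^ (2 ^ j) := by ring
      _ = _ := by rw [← h4]
  linarith

end Pool.Agent.H268R2.KR
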