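import Mathlib

/-! Dense subsets of elementary abelian 2-groups contain cosets of subgroups of order `2^j`. -/

set_option autoImplicit false

open Finset

namespace Pool.Agent.H268R2.KR

variable {H : Type} [AddCommGroup H] [Fintype H] [DecidableEq H]

/-- the translate -/
def tr (h : H) (B : Finset H) : Finset H := B.image fun b => h + b

theorem mem_tr {h x : H} {B : Finset H} : x ∈ tr h B ↔ ∃ b ∈ B, h + b = x := by
  unfold tr
  rw [Finset.mem_image]

theorem mem_tr' {h x : H} {B : Finset H} : x ∈ tr h B ↔ x - h ∈ B := by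
  rw [mem_tr]
  constructor
  · rintro ⟨b, hb, rfl⟩; simpa using hb
  · intro hx; exact ⟨x - h, hx, by abel⟩

/-- all pairs are counted by the sizes of the intersections with the translates -/
theorem sum_inter (B : Finset H) : ∑ h : H, (B ∩ tr h B).card = B.card * B.card := by
  have h1 : ∀ h : H, (B ∩ tr h B).card = ∑ x ∈ B, if x - h ∈ B then 1 else 0 := by
    intro h
    rw [← Finset.card_filter]
    congr 1
    ext x
    simp [mem_tr']
  simp only [h1]
  rw [Finset.sum_comm]
  have h2 : ∀ x ∈ B, ∑ h : H, (if x - h ∈ B then 1 else 0) = B.card := by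
    intro x _
    rw [← Finset.card_filter]
    apply Finset.card_bij (fun h _ => x - h)
    · intro h hh; simpa using hh
    · intro a _ b _ hab; simpa using hab
    · intro b hb; exact ⟨x - b, by simpa using hb, by abel⟩
  rw [Finset.sum_congr rfl h2, Finset.sum_const, smul_eq_mul]

/-- one step: a finite subgroup `W` (closed set containing `0`) and a `W`-invariant set `B` -/
theorem step (h2 : ∀ h : H, h + h = 0) (W B : Finset H) (h0 : (0 : H) ∈ W)
    (hW : ∀ x ∈ W, ∀ y ∈ W, x + y ∈ W) (hB : ∀ w ∈ W, ∀ b ∈ B, w + b ∈ B)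
    (hb : 2 * W.card ≤ B.card) :
    ∃ W' B' : Finset H, (0 : H) ∈ W' ∧ (∀ x ∈ W', ∀ y ∈ W', x + y ∈ W') ∧
      (∀ w ∈ W', ∀ b ∈ B', w + b ∈ B') ∧ B' ⊆ B ∧ W'.card = 2 * W.card ∧
      B.card * B.card ≤ 2 * Fintype.card H * B'.card := by
  classical
  have hneg : ∀ x : H, -x = x := fun x => by
    rw [neg_eq_iff_add_eq_zero]; exact h2 x
  have hWpos : 0 < W.card := Finset.card_pos.mpr ⟨0, h0⟩
  -- translates by elements of `W`
  have hinv : ∀ w ∈ W, (B ∩ tr w B).card = B.card := by
    intro w hw
    congr 1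
    ext x
    rw [mem_inter, mem_tr']
    constructor
    · exact fun h => h.1
    · intro hx
      refine ⟨hx, ?_⟩
      have := hB w hw x hx
      rw [sub_eq_add_neg, hneg, add_comm]
      exact this
  have hsum := sum_inter B
  have hsplit : ∑ h : H, (B ∩ tr h B).card =
      ∑ h ∈ W, (B ∩ tr h B).card + ∑ h ∈ Wᶜ, (B ∩ tr h B).card := by
    rw [← Finset.sum_add_sum_compl W]
  have hWs : ∑ h ∈ W, (B ∩ tr h B).card = W.card * B.card := by
    rw [Finset.sum_congr rfl hinv, Finset.sum_const, smul_eq_mul]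
  -- a large intersection
  obtain ⟨h, hh, hlarge⟩ : ∃ h ∈ Wᶜ, B.card * B.card ≤ 2 * Fintype.card H * (B ∩ tr h B).card := by
    by_contra hcon
    push Not at hcon
    have h3 : ∑ h ∈ Wᶜ, 2 * Fintype.card H * (B ∩ tr h B).card ≤
        ∑ _h ∈ Wᶜ, B.card * B.card := Finset.sum_le_sum fun h hh => (hcon h hh).le
    rw [← Finset.mul_sum, Finset.sum_const, smul_eq_mul] at h3
    have h4 : (Wᶜ).card + W.card = Fintype.card H := by
      rw [Finset.card_compl]
      have := Finset.card_le_univ W
      omega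
    have h5 : ∑ h ∈ Wᶜ, (B ∩ tr h B).card + W.card * B.card = B.card * B.card := by
      rw [← hsum, hsplit, hWs]; ring
    set X := ∑ h ∈ Wᶜ, (B ∩ tr h B).card with hX
    have h6 : B.card * B.card ≤ 2 * X := by nlinarith
    have hBpos : 0 < B.card := by omega
    have h7 : Fintype.card H * (B.card * B.card) ≤ 2 * Fintype.card H * X := by
      nlinarith
    have h8 : 2 * Fintype.card H * X ≤ (Wᶜ).card * (B.card * B.card) := h3
    have h9 : (Wᶜ).card < Fintype.card H := by omega
    have h10 : (Wᶜ).card * (B.card * B.card) < Fintype.card H * (B.card * B.card) :=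
      Nat.mul_lt_mul_of_pos_right h9 (by positivity)
    omega
  have hhW : h ∉ W := by simpa using hh
  refine ⟨W ∪ tr h W, B ∩ tr h B, mem_union_left _ h0, ?_, ?_, inter_subset_left, ?_, hlarge⟩
  · intro x hx y hy
    rw [mem_union, mem_tr'] at hx hy ⊢
    rcases hx with hx | hx <;> rcases hy with hy | hy
    · exact Or.inl (hW x hx y hy)
    · right
      have := hW x hx _ hy
      rwa [show x + y - h = x + (y - h) by abel]
    · right
      have := hW _ hx y hy
      rwa [show x + y - h = (x - h) + y by abel]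
    · left
      have := hW _ hx _ hy
      have e : x - h + (y - h) = x + y := by
        rw [show x - h + (y - h) = x + y - (h + h) by abel, h2, sub_zero]
      rwa [e] at this
  · intro w hw b hb'
    rw [mem_inter, mem_tr'] at hb' ⊢
    rw [mem_union, mem_tr'] at hw
    rcases hw with hw | hw
    · refine ⟨hB w hw b hb'.1, ?_⟩
      have := hB w hw _ hb'.2
      rwa [show w + b - h = w + (b - h) by abel]
    · constructor
      · have := hB _ hw _ hb'.2
        have e : w - h + (b - h) = w + b := by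
          rw [show w - h + (b - h) = w + b - (h + h) by abel, h2, sub_zero]
        rwa [e] at this
      · have := hB _ hw _ hb'.1
        rwa [show w + b - h = w - h + b by abel]
  · have hd : Disjoint W (tr h W) := by
      rw [Finset.disjoint_left]
      intro x hx hx'
      rw [mem_tr'] at hx'
      have := hW _ hx' x hx
      apply hhW
      have e : x - h + x = h := by
        rw [show x - h + x = (x + x) - h by abel, h2, zero_sub, hneg]
      rwa [e] at this
    rw [card_union_of_disjoint hd]
    have : (tr h W).card = W.card := by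
      apply Finset.card_image_of_injective
      intro a b hab
      simpa using hab
    omega

/-- the iteration -/
theorem iterate (h2 : ∀ h : H, h + h = 0) (A : Finset H) (j : ℕ)
    (hA : ∀ i < j, 2 ^ (i + 1) * (2 * Fintype.card H) ^ (2 ^ i) ≤
      2 * Fintype.card H * A.card ^ (2 ^ i)) :
    ∃ W B : Finset H, (0 : H) ∈ W ∧ (∀ x ∈ W, ∀ y ∈ W, x + y ∈ W) ∧
      (∀ w ∈ W, ∀ b ∈ B, w + b ∈ B) ∧ B ⊆ A ∧ W.card = 2 ^ j ∧
      2 * Fintype.card H * A.card ^ (2 ^ j) ≤ B.card * (2 * Fintype.card H) ^ (2 ^ j) := by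
  induction j with
  | zero =>
    refine ⟨{0}, A, by simp, by simp, by simp, subset_rfl, by simp, ?_⟩
    simp only [pow_zero, pow_one]
    exact (mul_comm _ _).le
  | succ j ih =>
    obtain ⟨W, B, h0, hW, hB, hBA, hc, hineq⟩ := ih fun i hi => hA i (by omega)
    have hpos : 0 < 2 * Fintype.card H := by
      have : 0 < Fintype.card H := Fintype.card_pos_iff.mpr ⟨0⟩
      omega
    set t := 2 * Fintype.card H with ht
    have h3 := hA j (by omega)
    have hb : 2 * W.card ≤ B.card := by
      rw [hc]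
      have h4 : 2 * 2 ^ j * t ^ (2 ^ j) ≤ B.card * t ^ (2 ^ j) := by
        calc 2 * 2 ^ j * t ^ (2 ^ j) = 2 ^ (j + 1) * t ^ (2 ^ j) := by ring
          _ ≤ t * A.card ^ (2 ^ j) := h3
          _ ≤ _ := hineq
      exact Nat.le_of_mul_le_mul_right h4 (by positivity)
    obtain ⟨W', B', h0', hW', hB', hBB, hc', hcard⟩ := step h2 W B h0 hW hB hb
    refine ⟨W', B', h0', hW', hB', hBB.trans hBA, by rw [hc', hc]; ring, ?_⟩
    rw [← ht] at hcard
    -- `t A^(2^(j+1)) ≤ B' t^(2^(j+1))`
    have h5 : (t * A.card ^ (2 ^ j)) * (t * A.card ^ (2 ^ j)) ≤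
        (B.card * t ^ (2 ^ j)) * (B.card * t ^ (2 ^ j)) := Nat.mul_le_mul hineq hineq
    have h6 : t * (t * A.card ^ (2 ^ (j + 1))) ≤ t * (B'.card * t ^ (2 ^ (j + 1))) := by
      have e1 : t * (t * A.card ^ (2 ^ (j + 1))) =
          (t * A.card ^ (2 ^ j)) * (t * A.card ^ (2 ^ j)) := by
        rw [pow_succ 2 j, pow_mul]; ring
      have e2 : (B.card * t ^ (2 ^ j)) * (B.card * t ^ (2 ^ j)) =
          (B.card * B.card) * t ^ (2 ^ (j + 1)) := by
        rw [pow_succ 2 j, pow_mul]; ring
      rw [e1]
      refine h5.trans ?_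
      rw [e2]
      calc (B.card * B.card) * t ^ (2 ^ (j + 1)) ≤ (t * B'.card) * t ^ (2 ^ (j + 1)) :=
            Nat.mul_le_mul_right _ hcard
        _ = _ := by ring
    exact Nat.le_of_mul_le_mul_left h6 hpos

end Pool.Agent.H268R2.KR
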