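import Pool.Agent.H268R2.KR.Flat

/-! `K_{r,r}`-free graphs with a free elementary abelian 2-group of automorphisms. -/

set_option autoImplicit false

open Finset

set_option linter.unusedSectionVars false

namespace Pool.Agent.H268R2.KR

/-- the combinatorial statement in the form used below -/
theorem flat {H : Type} [AddCommGroup H] [Fintype H] [DecidableEq H] (h2 : ∀ h : H, h + h = 0)
    (A : Finset H) (j : ℕ) (hApos : 0 < A.card)
    (hA : 2 ^ j * (2 * Fintype.card H) ^ (2 ^ j) ≤ Fintype.card H * A.card ^ (2 ^ j)) :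
    ∃ (W : Finset H) (b : H), W.card = 2 ^ (j + 1) ∧ (∀ x ∈ W, ∀ y ∈ W, x + y ∈ W) ∧
      (∀ w ∈ W, w + b ∈ A) := by
  have hpos : 0 < 2 * Fintype.card H := by
    have : 0 < Fintype.card H := Fintype.card_pos_iff.mpr ⟨0⟩
    omega
  have hle : A.card ≤ 2 * Fintype.card H := by
    have := Finset.card_le_univ A
    omega
  have hcond : ∀ i < j + 1, 2 ^ (i + 1) * (2 * Fintype.card H) ^ (2 ^ i) ≤
      2 * Fintype.card H * A.card ^ (2 ^ i) := by
    intro i hi
    set t := 2 * Fintype.card H with ht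
    have h3 : 2 ^ i ≤ 2 ^ j := Nat.pow_le_pow_right (by norm_num) (by omega)
    obtain ⟨d, hd⟩ : ∃ d, 2 ^ j = 2 ^ i + d := ⟨2 ^ j - 2 ^ i, by omega⟩
    have h4 : 2 ^ (j + 1) * t ^ (2 ^ j) ≤ t * A.card ^ (2 ^ j) := by
      calc 2 ^ (j + 1) * t ^ (2 ^ j) = 2 * (2 ^ j * t ^ (2 ^ j)) := by ring
        _ ≤ 2 * (Fintype.card H * A.card ^ (2 ^ j)) := Nat.mul_le_mul_left _ hA
        _ = t * A.card ^ (2 ^ j) := by rw [ht]; ring
    have h5 : 2 ^ (i + 1) * t ^ (2 ^ i) * t ^ d ≤ t * A.card ^ (2 ^ i) * t ^ d := by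
      calc 2 ^ (i + 1) * t ^ (2 ^ i) * t ^ d = 2 ^ (i + 1) * t ^ (2 ^ j) := by
            rw [hd, pow_add]; ring
        _ ≤ 2 ^ (j + 1) * t ^ (2 ^ j) :=
            Nat.mul_le_mul_right _ (Nat.pow_le_pow_right (by norm_num) (by omega))
        _ ≤ t * A.card ^ (2 ^ j) := h4
        _ = t * A.card ^ (2 ^ i) * A.card ^ d := by rw [hd, pow_add]; ring
        _ ≤ t * A.card ^ (2 ^ i) * t ^ d := Nat.mul_le_mul_left _ (Nat.pow_le_pow_left hle d)
    exact Nat.le_of_mul_le_mul_right h5 (by positivity)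
  obtain ⟨W, B, h0, hW, hB, hBA, hc, hineq⟩ := iterate h2 A (j + 1) hcond
  have hBpos : 0 < B.card := by
    by_contra h
    have h3 : B.card = 0 := by omega
    rw [h3, zero_mul] at hineq
    have : 0 < 2 * Fintype.card H * A.card ^ (2 ^ (j + 1)) := by positivity
    omega
  obtain ⟨b, hb⟩ := Finset.card_pos.mp hBpos
  exact ⟨W, b, hc, hW, fun w hw => hBA (hB w hw b hb)⟩

variable {V : Type} [Fintype V] [DecidableEq V] {H : Type} [AddCommGroup H] [Fintype H]
  [DecidableEq H] [AddAction H V]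

open Classical in
/-- the differences which join `x` to the orbit of `y` -/
noncomputable def dif (G : SimpleGraph V) (x y : V) : Finset H :=
  Finset.univ.filter fun h : H => G.Adj x (h +ᵥ y)

theorem mem_dif (G : SimpleGraph V) (x y : V) (h : H) : h ∈ dif (H := H) G x y ↔ G.Adj x (h +ᵥ y) := by
  simp [dif]

open Classical in
theorem sum_dif (G : SimpleGraph V) :
    ∑ x : V, ∑ y : V, (dif (H := H) G x y).card = Fintype.card H * (2 * G.edgeFinset.card) := by
  have h1 : ∀ x : V, ∑ y : V, (dif (H := H) G x y).card = Fintype.card H * G.degree x := by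
    intro x
    have e1 : ∀ y : V, (dif (H := H) G x y).card = ∑ h : H, if G.Adj x (h +ᵥ y) then 1 else 0 := by
      intro y
      rw [← Finset.card_filter]
      unfold dif
      congr 1
    simp only [e1]
    rw [Finset.sum_comm]
    have e2 : ∀ h : H, ∑ y : V, (if G.Adj x (h +ᵥ y) then 1 else 0) = G.degree x := by
      intro h
      rw [← Finset.card_filter, ← SimpleGraph.card_neighborFinset_eq_degree]
      apply Finset.card_bij (fun y _ => h +ᵥ y)
      · intro y hy; simpa using hy
      · intro a _ b _ hab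
        exact (AddAction.injective h) hab
      · intro b hb
        refine ⟨-h +ᵥ b, ?_, by simp⟩
        simpa using hb
    rw [Finset.sum_congr rfl (fun h _ => e2 h), Finset.sum_const, smul_eq_mul, card_univ]
  rw [Finset.sum_congr rfl (fun x _ => h1 x), ← Finset.mul_sum, SimpleGraph.sum_degrees_eq_twice_card_edges]

/-- a coset of a subgroup with at least `r` elements gives `K_{r,r}` -/
theorem contains (h2 : ∀ h : H, h + h = 0) (hfree : ∀ (h : H) (v : V), h +ᵥ v = v → h = 0)
    (G : SimpleGraph V) (hinv : ∀ (h : H) (x y : V), G.Adj (h +ᵥ x) (h +ᵥ y) ↔ G.Adj x y)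
    {r : ℕ} {W : Finset H} {b : H} {x y : V} (hr : r ≤ W.card)
    (hW : ∀ x ∈ W, ∀ y ∈ W, x + y ∈ W) (hb : ∀ w ∈ W, w + b ∈ dif (H := H) G x y) :
    (completeBipartiteGraph (Fin r) (Fin r)).IsContained G := by
  obtain ⟨ι⟩ : Nonempty (Fin r ↪ W) := by
    apply Function.Embedding.nonempty_of_card_le
    simpa using hr
  have hinj : ∀ (v : V) (a c : H), a +ᵥ v = c +ᵥ v → a = c := by
    intro v a c h
    have h3 : (-c + a) +ᵥ v = v := by
      rw [add_vadd, h, ← add_vadd]; simp
    have h4 := hfree _ _ h3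
    rw [neg_add_eq_zero] at h4
    exact h4.symm
  let f : Fin r ⊕ Fin r → V := fun s => match s with
    | Sum.inl i => (ι i : H) +ᵥ x
    | Sum.inr i => ((ι i : H) + b) +ᵥ y
  have hadj : ∀ i k : Fin r, G.Adj (f (Sum.inl i)) (f (Sum.inr k)) := by
    intro i k
    show G.Adj ((ι i : H) +ᵥ x) (((ι k : H) + b) +ᵥ y)
    rw [← hinv (ι i : H), ← add_vadd, ← add_vadd, h2, zero_vadd, ← add_assoc]
    exact (mem_dif G x y _).mp (hb _ (hW _ (ι i).2 _ (ι k).2))
  refine ⟨⟨⟨f, ?_⟩, ?_⟩⟩
  · intro s s' hss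
    rcases s with i | i <;> rcases s' with k | k
    · simp at hss
    · exact hadj i k
    · exact (hadj k i).symm
    · simp at hss
  · intro s s' hss
    rcases s with i | i <;> rcases s' with k | k
    · have h3 := hinj x _ _ hss
      have h4 := ι.injective (Subtype.ext h3)
      rw [h4]
    · have h3 := hadj i k
      have h4 : f (Sum.inl i) = f (Sum.inr k) := hss
      rw [h4] at h3
      exact absurd h3 (G.irrefl)
    · have h3 := hadj k i
      have h4 : f (Sum.inr i) = f (Sum.inl k) := hss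
      rw [h4] at h3
      exact absurd h3 (G.irrefl)
    · have h3 := hinj y _ _ hss
      have h5 : (ι i : H) = ι k := add_right_cancel h3
      have h4 := ι.injective (Subtype.ext h5)
      rw [h4]

open Classical in
theorem main [Nonempty V] (h2 : ∀ h : H, h + h = 0)
    (hfree : ∀ (h : H) (v : V), h +ᵥ v = v → h = 0)
    (G : SimpleGraph V) (hinv : ∀ (h : H) (x y : V), G.Adj (h +ᵥ x) (h +ᵥ y) ↔ G.Adj x y)
    {r j : ℕ} (hr : r ≤ 2 ^ (j + 1)) (hG : (completeBipartiteGraph (Fin r) (Fin r)).Free G) :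
    Fintype.card H * G.edgeFinset.card ^ (2 ^ j) < 2 ^ j * (Fintype.card V ^ 2) ^ (2 ^ j) := by
  by_contra hcon
  push Not at hcon
  have htpos : 0 < Fintype.card H := Fintype.card_pos_iff.mpr ⟨0⟩
  have hnpos : 0 < Fintype.card V := Fintype.card_pos
  set n := Fintype.card V with hn
  set t := Fintype.card H with ht
  set e := G.edgeFinset.card with he
  set q := 2 ^ j with hq
  have hqpos : 0 < q := by positivity
  -- a pair with many differences
  obtain ⟨x, y, hxy⟩ : ∃ x y : V, t * (2 * e) ≤ n ^ 2 * (dif (H := H) G x y).card := by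
    by_contra hc
    push Not at hc
    have h3 : ∑ x : V, ∑ y : V, n ^ 2 * (dif (H := H) G x y).card <
        ∑ _x : V, ∑ _y : V, t * (2 * e) := by
      apply Finset.sum_lt_sum_of_nonempty Finset.univ_nonempty
      intro x _
      apply Finset.sum_lt_sum_of_nonempty Finset.univ_nonempty
      intro y _
      exact hc x y
    simp only [← Finset.mul_sum] at h3
    rw [sum_dif] at h3
    simp only [Finset.sum_const, Finset.card_univ, smul_eq_mul] at h3
    rw [← hn, ← ht, ← he] at h3
    nlinarith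
  set a := (dif (H := H) G x y).card with ha
  have hkey : q * (2 * t) ^ q ≤ t * a ^ q := by
    have h3 : (n ^ 2) ^ q * (q * (2 * t) ^ q) ≤ (n ^ 2) ^ q * (t * a ^ q) := by
      calc (n ^ 2) ^ q * (q * (2 * t) ^ q) = (q * (n ^ 2) ^ q) * (2 * t) ^ q := by ring
        _ ≤ (t * e ^ q) * (2 * t) ^ q := Nat.mul_le_mul_right _ hcon
        _ = t * (t * (2 * e)) ^ q := by
            rw [show t * (2 * e) = (2 * t) * e by ring, mul_pow (2 * t) e]; ring
        _ ≤ t * (n ^ 2 * a) ^ q := Nat.mul_le_mul_left _ (Nat.pow_le_pow_left hxy q)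
        _ = _ := by rw [mul_pow]; ring
    exact Nat.le_of_mul_le_mul_left h3 (by positivity)
  have hapos : 0 < a := by
    by_contra h
    have h3 : a = 0 := by omega
    rw [h3, zero_pow hqpos.ne', mul_zero] at hkey
    have : 0 < q * (2 * t) ^ q := by positivity
    omega
  obtain ⟨W, b, hWc, hW, hWb⟩ := flat h2 (dif (H := H) G x y) j hapos hkey
  exact hG (contains h2 hfree G hinv (by rw [hWc]; exact hr) hW hWb)

end Pool.Agent.H268R2.KR
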